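import Pool.Agent.J4H22.IX.Stm3
import Pool.Agent.J4H84.IX.Uni

/-! Project IX (MP_e016b3_lc, 3SUM-Indexing), piece UNC: fewer positions and smaller values (copy of UNI, helper84). -/

set_option autoImplicit false

namespace Pool.Agent.J4H46.IX

open Finset Filter Topology Pool.Agent.J4H22.IX Pool.Agent.J4H84.IX

theorem exists_k2 (D : ℕ) : ∃ k : ℕ, 256 * (k + 1 + D) ^ D ≤ 2 ^ k := by
  have h1 := tendsto_pow_const_div_const_pow_of_one_lt D (r := (2 : ℝ)) (by norm_num)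
  have h2 : ∀ᶠ m : ℕ in atTop, (m : ℝ) ^ D / 2 ^ m < 1 / (256 * 2 ^ (1 + D)) :=
    h1.eventually (gt_mem_nhds (by positivity))
  obtain ⟨m, hm, hm1⟩ := (h2.and (eventually_ge_atTop (1 + D))).exists
  refine ⟨m - (1 + D), ?_⟩
  have h3 : m - (1 + D) + 1 + D = m := by omega
  rw [h3]
  rw [div_lt_div_iff₀ (by positivity) (by positivity)] at hm
  have h4 : (2 : ℝ) ^ m = 2 ^ (m - (1 + D)) * 2 ^ (1 + D) := by
    rw [← pow_add]
    congr 1
    omega
  have h5 : (256 * (m : ℝ) ^ D) ≤ 2 ^ (m - (1 + D)) := by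
    have h6 : (0 : ℝ) < 2 ^ (1 + D) := by positivity
    rw [h4] at hm
    have h7 : (256 * (m : ℝ) ^ D) * 2 ^ (1 + D) < 2 ^ (m - (1 + D)) * 2 ^ (1 + D) := by
      linarith
    exact (lt_of_mul_lt_mul_right h7 h6.le).le
  exact_mod_cast h5

/-- (UNC) -/
theorem t_UNC : S_UNC := by
  intro hSPC hEMB hIDX c D hc hF
  obtain ⟨ε, C, hε, H⟩ := hF
  obtain ⟨k, hk⟩ := exists_k2 D
  obtain ⟨r, hr⟩ : ∃ r, r = k + 1 + D := ⟨_, rfl⟩
  rw [← hr] at hk
  obtain ⟨e, he⟩ : ∃ e, e = min ε 2 / 2 := ⟨_, rfl⟩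
  have he0 : 0 < e := by rw [he]; positivity
  have he1 : 2 * e ≤ ε := by
    rw [he]
    have := min_le_left ε 2
    linarith
  have he2 : 2 * e ≤ 2 := by
    rw [he]
    have := min_le_right ε 2
    linarith
  obtain ⟨G, hG, hg⟩ := growD (2 * D) e he0
  obtain ⟨E, hE⟩ : ∃ E : ℕ, r * (C * ((2 : ℝ) ^ k) ^ 2 * G) ≤ E := exists_nat_ge _
  refine ⟨e, E + r * (C * r ^ C) + C, he0, fun n hn => ?_⟩
  obtain ⟨L, hL⟩ : ∃ L, L = Nat.clog 2 n := ⟨_, rfl⟩
  have hL1 : 1 ≤ L := by rw [hL]; exact Nat.clog_pos (by norm_num) hn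
  have hLD : 1 ≤ L ^ D := Nat.one_le_pow _ _ hL1
  obtain ⟨n', hn'⟩ : ∃ n', n' = 2 ^ k * n * L ^ D := ⟨_, rfl⟩
  have hnn' : n ≤ n' := by
    rw [hn']
    calc n = 1 * n * 1 := by ring
      _ ≤ 2 ^ k * n * L ^ D := Nat.mul_le_mul (Nat.mul_le_mul_right _ Nat.one_le_two_pow) hLD
  have hclog : Nat.clog 2 n' ≤ r * L := by
    apply Nat.clog_le_of_le_pow
    have h1 : n ≤ 2 ^ L := by rw [hL]; exact Nat.le_pow_clog (by norm_num) n
    have h2 : L ≤ 2 ^ L := Nat.lt_two_pow_self.le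
    calc n' ≤ 2 ^ k * 2 ^ L * (2 ^ L) ^ D := by
          rw [hn']
          exact Nat.mul_le_mul (Nat.mul_le_mul_left _ h1) (Nat.pow_le_pow_left h2 _)
      _ = 2 ^ (k + L + L * D) := by rw [← pow_mul, ← pow_add, ← pow_add]
      _ ≤ 2 ^ (r * L) := by
        apply Nat.pow_le_pow_right (by norm_num)
        have h3 : k ≤ k * L := Nat.le_mul_of_pos_right k hL1
        have h4 : r * L = k * L + L + L * D := by rw [hr]; ring
        omega
  have hclog1 : 1 ≤ Nat.clog 2 n' := Nat.clog_pos (by norm_num) (hn.trans hnn')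
  have hr1 : 1 ≤ r ^ D := Nat.one_le_pow _ _ (by omega)
  have hk1 : 256 ≤ 2 ^ k := le_trans (by omega) hk
  have hk2 : r ^ D ≤ 2 ^ k := le_trans (by omega) hk
  have hpos : 256 * n ≤ n' := by
    rw [hn']
    calc 256 * n = 256 * n * 1 := by ring
      _ ≤ 2 ^ k * n * L ^ D := Nat.mul_le_mul (Nat.mul_le_mul_right _ hk1) hLD
  have huni : n ≤ n' / Nat.clog 2 n' ^ D := by
    rw [Nat.le_div_iff_mul_le (Nat.pow_pos hclog1)]
    calc n * Nat.clog 2 n' ^ D ≤ n * (r * L) ^ D :=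
          Nat.mul_le_mul_left _ (Nat.pow_le_pow_left hclog _)
      _ = r ^ D * (n * L ^ D) := by rw [mul_pow]; ring
      _ ≤ 2 ^ k * (n * L ^ D) := Nat.mul_le_mul_right _ hk2
      _ = n' := by rw [hn']; ring
  obtain ⟨s, t, h1, h2, h3⟩ := H n' (hn.trans hnn')
  have h4 : CStructure Bool OkWeak (ConvSet (256 * n) n) s (c * Nat.clog 2 n') t :=
    hEMB (256 * n) n' n (n' / Nat.clog 2 n' ^ D) s _ t hpos huni h3
  have h5 : CStructure Bool OkWeak (ConvSet (256 * n) n) (r * s) (c * L) (r * t) := by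
    refine hSPC hIDX _ _ _ s (c * L) (c * Nat.clog 2 n') r t ?_ h4
    calc c * Nat.clog 2 n' ≤ c * (r * L) := Nat.mul_le_mul_left _ hclog
      _ = r * (c * L) := by ring
  rw [hL] at h5
  refine ⟨r * s, r * t, ?_, ?_, h5⟩
  · have hn1 : (1 : ℝ) ≤ n := by exact_mod_cast (by omega : 1 ≤ n)
    have hn'1 : (1 : ℝ) ≤ n' := by exact_mod_cast (by omega : 1 ≤ n')
    have h6 : (n' : ℝ) ^ (2 - ε) ≤ (n' : ℝ) ^ (2 - 2 * e) :=
      Real.rpow_le_rpow_of_exponent_le hn'1 (by linarith)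
    have hK1 : (1 : ℝ) ≤ 2 ^ k := one_le_pow₀ (by norm_num)
    have hLr : (1 : ℝ) ≤ L := by exact_mod_cast hL1
    have hLDr : (1 : ℝ) ≤ (L : ℝ) ^ D := one_le_pow₀ hLr
    have h7 : (n' : ℝ) ^ (2 - 2 * e) ≤ ((2 : ℝ) ^ k) ^ 2 * (n : ℝ) ^ (2 - 2 * e) * (L : ℝ) ^ (2 * D) := by
      have e1 : (n' : ℝ) = (2 : ℝ) ^ k * n * (L : ℝ) ^ D := by rw [hn']; push_cast; ring
      rw [e1, Real.mul_rpow (by positivity) (by positivity), Real.mul_rpow (by positivity)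
        (by positivity)]
      have e2 : ((2 : ℝ) ^ k) ^ (2 - 2 * e) ≤ ((2 : ℝ) ^ k) ^ 2 := by
        rw [← Real.rpow_natCast ((2 : ℝ) ^ k) 2]
        apply Real.rpow_le_rpow_of_exponent_le hK1
        push_cast
        linarith
      have e3 : ((L : ℝ) ^ D) ^ (2 - 2 * e) ≤ (L : ℝ) ^ (2 * D) := by
        calc ((L : ℝ) ^ D) ^ (2 - 2 * e) ≤ ((L : ℝ) ^ D) ^ (2 : ℝ) :=
              Real.rpow_le_rpow_of_exponent_le hLDr (by linarith)
          _ = (L : ℝ) ^ (2 * D) := by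
            have : ((L : ℝ) ^ D) ^ (2 : ℝ) = ((L : ℝ) ^ D) ^ 2 := by
              exact_mod_cast Real.rpow_natCast ((L : ℝ) ^ D) 2
            rw [this, ← pow_mul]
            congr 1
            ring
      gcongr
    have h8 : (L : ℝ) ^ (2 * D) ≤ G * (n : ℝ) ^ e := by
      rw [hL]
      exact hg n hn
    have h9 : (n : ℝ) ^ (2 - 2 * e) * (n : ℝ) ^ e = (n : ℝ) ^ (2 - e) := by
      rw [← Real.rpow_add (by linarith)]
      congr 1
      ring
    push_cast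
    have h10 : (0 : ℝ) ≤ (n : ℝ) ^ (2 - e) := by positivity
    calc (r : ℝ) * s ≤ r * (C * (((2 : ℝ) ^ k) ^ 2 * (n : ℝ) ^ (2 - 2 * e) * (G * (n : ℝ) ^ e))) := by
          have h11 : (s : ℝ) ≤ C * (((2 : ℝ) ^ k) ^ 2 * (n : ℝ) ^ (2 - 2 * e) * (G * (n : ℝ) ^ e)) := by
            refine h1.trans ?_
            apply mul_le_mul_of_nonneg_left _ (Nat.cast_nonneg C)
            refine h6.trans (h7.trans ?_)
            apply mul_le_mul_of_nonneg_left h8 (by positivity)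
          exact mul_le_mul_of_nonneg_left h11 (Nat.cast_nonneg r)
      _ = (r * (C * ((2 : ℝ) ^ k) ^ 2 * G)) * (n : ℝ) ^ (2 - e) := by rw [← h9]; ring
      _ ≤ ((E : ℝ) + r * (C * r ^ C) + C) * (n : ℝ) ^ (2 - e) := by
        apply mul_le_mul_of_nonneg_right _ h10
        have : (0 : ℝ) ≤ r * (C * r ^ C) + C := by positivity
        linarith
  · rw [← hL]
    have h6 : t ≤ C * (r * L) ^ C := h2.trans (Nat.mul_le_mul_left _ (Nat.pow_le_pow_left hclog _))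
    calc r * t ≤ r * (C * (r * L) ^ C) := Nat.mul_le_mul_left _ h6
      _ = (r * (C * r ^ C)) * L ^ C := by rw [mul_pow]; ring
      _ ≤ (E + r * (C * r ^ C) + C) * L ^ (E + r * (C * r ^ C) + C) := by
        apply Nat.mul_le_mul
        · omega
        · exact Nat.pow_le_pow_right hL1 (by omega)

end Pool.Agent.J4H46.IX
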