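import Pool.Agent.J4H22.IX.Stm2

set_option autoImplicit false

/-! Project IX (MP_e016b3_lc, 3SUM-Indexing), piece AS2: assembly of the second part. -/

namespace Pool.Agent.J4H46.IX
open Pool.Agent.J4H22.IX Finset

/-- smaller universe -/
theorem restrictN {O : Type} {Ok : Finset ℕ → Finset ℕ → ℕ → O → Prop} {n N N' s w t : ℕ} (h : N' ≤ N)
    (H : Structure O Ok n N s w t) : Structure O Ok n N' s w t := by
  obtain ⟨Q, hQ, hm⟩ := H
  exact ⟨Q, hQ, fun A B hA hB hA' hB' => hm A B hA hB (fun x hx => (hA' x hx).trans_le h)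
    (fun y hy => (hB' y hy).trans_le h)⟩

/-- one coin -/
theorem oneCoin {O : Type} {Ok : Finset ℕ → Finset ℕ → ℕ → O → Prop} {n N s w t : ℕ} {δ : ℝ} (hδ : δ ≤ 1 / 2)
    (H : Structure O Ok n N s w t) : RStructure O Ok n N s w t δ := by
  obtain ⟨Q, hQ, hm⟩ := H
  refine ⟨Unit, inferInstance, fun _ => 1, fun _ => Q, fun _ => zero_le_one, by simp, fun _ z => hQ z, ?_⟩
  intro A B hA hB hA' hB'
  obtain ⟨m, hm⟩ := hm A B hA hB hA' hB'
  refine ⟨fun _ => m, fun z => ?_⟩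
  have h1 : (({ω : Unit | Ok A B z ((Q z).eval m)} : Set Unit)) = Set.univ := by
    ext x; simp [hm z]
  simp only [h1]
  simp
  linarith

theorem clog_pos' {n : ℕ} (hn : 2 ≤ n) : 1 ≤ Nat.clog 2 n := Nat.clog_pos (by norm_num) hn

/-- (AS2) -/
theorem t_AS2 : S_AS2 := by
  intro hF hR hU c c' D hc hc'
  have hT := hF c c' hc hc'
  have e12 : RForm Bool OkWeak c (fun n => n ^ 2 / Nat.clog 2 n ^ D) → Form Bool OkWeak c (fun n => 64 * n ^ 2) := by
    intro h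
    refine hU c D hc (hR c _ hc ?_ h)
    intro n hn
    have h1 : n ≤ 2 ^ Nat.clog 2 n := Nat.le_pow_clog (by norm_num) n
    calc n ^ 2 / Nat.clog 2 n ^ D ≤ n ^ 2 := Nat.div_le_self _ _
      _ ≤ (2 ^ Nat.clog 2 n) ^ 2 := Nat.pow_le_pow_left h1 2
      _ = 2 ^ (2 * Nat.clog 2 n) := by rw [← pow_mul, mul_comm]
      _ ≤ 2 ^ (c * Nat.clog 2 n) := Nat.pow_le_pow_right (by norm_num) (Nat.mul_le_mul_right _ (by omega))
  have e21 : Form Bool OkWeak c (fun n => 64 * n ^ 2) → RForm Bool OkWeak c (fun n => n ^ 2 / Nat.clog 2 n ^ D) := by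
    rintro ⟨ε, C, hε, h⟩
    refine ⟨ε, C + 1, hε, ?_⟩
    intro n hn
    obtain ⟨s, t, hs, ht, hst⟩ := h n hn
    have hcl := clog_pos' hn
    have hclR : (1 : ℝ) ≤ (Nat.clog 2 n : ℝ) := by exact_mod_cast hcl
    refine ⟨s, t, hs.trans ?_, ht.trans ?_, oneCoin ?_ (restrictN ?_ hst)⟩
    · have : (0 : ℝ) ≤ (n : ℝ) ^ (2 - ε) := Real.rpow_nonneg (by positivity) _
      push_cast
      nlinarith
    · exact Nat.mul_le_mul (Nat.le_succ _) (Nat.pow_le_pow_right hcl (Nat.le_succ _))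
    · have h2 : (1 : ℝ) ≤ (Nat.clog 2 n : ℝ) ^ (C + 1) := one_le_pow₀ hclR
      have h3 : (2 : ℝ) ≤ ((((C + 1 : ℕ) : ℝ)) + 1) * (Nat.clog 2 n : ℝ) ^ (C + 1) := by
        have h4 : (2 : ℝ) ≤ (((C + 1 : ℕ) : ℝ)) + 1 := by
          push_cast
          have : (0 : ℝ) ≤ C := Nat.cast_nonneg C
          linarith
        nlinarith
      exact one_div_le_one_div_of_le (by norm_num) h3
    · calc n ^ 2 / Nat.clog 2 n ^ D ≤ n ^ 2 := Nat.div_le_self _ _
        _ ≤ 64 * n ^ 2 := by omega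
  tfae_have 1 → 2 := fun h => (hT.out 0 1).1 (e12 h)
  tfae_have 2 → 1 := fun h => e21 ((hT.out 0 1).2 h)
  tfae_have 2 ↔ 3 := hT.out 1 2
  tfae_finish

end Pool.Agent.J4H46.IX
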